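import Pool.Agent.Results.MP_181555_al.SquaresOfTransvections
import Pool.Agent.Helper270.QA

/-!
# `Q(n,2)` is finite for every `n ≥ 3`

`H270Q.nielsen n hn` is the Nielsen move `a_1 ↦ a_2 a_1`, `a_i ↦ a_i` (`i ≥ 2`) of the free
group on `a_1, …, a_n`, and `H270Q.Q n m hn` is the quotient of `Aut(F_n)` by the normal closure
of its `m`-th power.
-/

set_option autoImplicit false

namespace Pool.Agent.Results.MP_89352f_al.LevelTwoFinite

open H270Q Pool.Agent.Results.MP_181555_al.SquaresOfTransvections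

/-- inversion of all generators -/
def invHom (n : ℕ) : FreeGroup (Fin n) →* FreeGroup (Fin n) :=
  FreeGroup.lift (fun i => (FreeGroup.of i)⁻¹)

lemma invHom_comp (n : ℕ) : (invHom n).comp (invHom n) = MonoidHom.id _ := by
  ext i
  simp [invHom]

/-- the automorphism inverting all generators -/
def inv (n : ℕ) : MulAut (FreeGroup (Fin n)) :=
  MonoidHom.toMulEquiv (invHom n) (invHom n) (invHom_comp n) (invHom_comp n)

lemma inv_of (n : ℕ) (i : Fin n) : inv n (FreeGroup.of i) = (FreeGroup.of i)⁻¹ := by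
  simp [inv, invHom, MonoidHom.toMulEquiv]

lemma inv_inv' (n : ℕ) : (inv n)⁻¹ = inv n := by
  rw [inv_eq_iff_mul_eq_one]
  apply MulEquiv.toMonoidHom_injective
  ext1 i
  show inv n (inv n (FreeGroup.of i)) = FreeGroup.of i
  rw [inv_of, map_inv, inv_of, inv_inv]

lemma finite_of_sq {n : ℕ} (hn : 3 ≤ n) (h2 : 2 ≤ n)
    (N : Subgroup (MulAut (FreeGroup (Fin n)))) [N.Normal]
    (h : (nielsen n h2) ^ 2 ∈ N) : N.FiniteIndex := by
  have hr := (result n (by omega)).2.2 N inferInstance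
  have hne : (⟨0, by omega⟩ : Fin n) ≠ ⟨1, by omega⟩ := by
    intro e
    have := congrArg Fin.val e
    simp at this
  refine (hr ⟨inv n * nielsen n h2 * (inv n)⁻¹, ⟨⟨0, by omega⟩, ⟨1, by omega⟩, hne, ?_, ?_⟩, ?_⟩).1
  · rw [inv_inv', MulAut.mul_apply, MulAut.mul_apply, inv_of, map_inv, nielsen_zero,
      mul_inv_rev, map_mul, map_inv, map_inv, inv_of, inv_of, inv_inv, inv_inv]
  · intro k hk
    rw [inv_inv', MulAut.mul_apply, MulAut.mul_apply, inv_of, map_inv, nielsen_ne h2 k hk,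
      map_inv, inv_of, inv_inv]
  · have e : inv n * nielsen n h2 * (inv n)⁻¹ * (inv n * nielsen n h2 * (inv n)⁻¹) =
        inv n * (nielsen n h2) ^ 2 * (inv n)⁻¹ := by
      rw [pow_two]; group
    rw [e]
    exact Subgroup.Normal.conj_mem inferInstance _ h _

lemma finite_Q {n m : ℕ} (h2 : 2 ≤ n) (hn : 3 ≤ n) (hm : m ∣ 2) : Finite (Q n m h2) := by
  have h : (nielsen n h2) ^ 2 ∈ Subgroup.normalClosure {(nielsen n h2) ^ m} := by
    obtain ⟨k, hk⟩ := hm
    have e : (nielsen n h2) ^ 2 = ((nielsen n h2) ^ m) ^ k := by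
      rw [← pow_mul, ← hk]
    have h0 : (nielsen n h2) ^ m ∈ Subgroup.normalClosure {(nielsen n h2) ^ m} :=
      Subgroup.subset_normalClosure (Set.mem_singleton _)
    rw [e]
    exact pow_mem h0 k
  have h3 : (Subgroup.normalClosure {(nielsen n h2) ^ m}).FiniteIndex := finite_of_sq hn h2 _ h
  exact Subgroup.finite_quotient_of_finiteIndex

/-- `Q(n,1)` and `Q(n,2)` are finite for every `n ≥ 3`. -/
theorem result (n m : ℕ) (hn : 3 ≤ n) (hm : m = 1 ∨ m = 2) :
    Finite (H270Q.Q n m (by omega)) := by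
  rcases hm with rfl | rfl
  · exact finite_Q (by omega) hn (by decide)
  · exact finite_Q (by omega) hn (by decide)

end Pool.Agent.Results.MP_89352f_al.LevelTwoFinite
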